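import Pool.Agent.LI6.Piece

/-!
LI6, step A, abnormal case: `conn_ab`.
-/

set_option autoImplicit false

namespace Pool.Agent.LI6

open Pool.Agent.LG6 Pool.Agent.LR5 Pool.Agent.LI5

variable {V : Type} {G : SimpleGraph V}

theorem conn_ab6 [Fintype V] (hG : IsKConnected 6 G) {a b v s t p q c d n n' : V}
    (h : Cg6 G a b v s t p q) (hQ : Ad5 G a b v s t p q {a, p, d, n, b})
    (np : ∀ y, G.Adj p y → y = n ∨ y = n' ∨ y = q ∨ y = c ∨ y = a ∨ y = v)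
    (qn : G.Adj q n) (qn' : G.Adj q n') (cn' : G.Adj c n')
    (hn' : n' ∉ ({a, p, d, n, b} : Set V) ∪ {v, s, t}) (hqd : q ≠ d) :
    (∃ P C, Pa6 G a b v s t p q P C) ∨
      Cn G ((({a, p, d, n, b} : Set V) ∪ {v, s, t})ᶜ) := by
  obtain ⟨X, hXM, hnX, hXc, hXcl⟩ := exists_comp G ((({a, p, d, n, b} : Set V) ∪ {v, s, t})ᶜ) n' hn'
  have hqM : q ∈ ((({a, p, d, n, b} : Set V) ∪ {v, s, t})ᶜ) := by
    rintro ((e | e | e | e | e) | (e | e | e))
    · exact h.nab (e ▸ h.bq.symm)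
    · exact h.pq.ne e.symm
    · exact hqd e
    · exact qn.ne e
    · exact h.bq.ne e.symm
    · exact h.vq.ne e.symm
    · exact h.qs e
    · exact h.qt e
  have hqX : q ∈ X := by
    by_contra hc
    exact hXcl q hc ⟨n', hnX, qn'⟩ hqM
  by_cases hXe : X = ((({a, p, d, n, b} : Set V) ∪ {v, s, t})ᶜ)
  · right
    rw [← hXe]
    exact hXc
  left
  obtain ⟨u, huM, huX⟩ : ∃ u, u ∈ ((({a, p, d, n, b} : Set V) ∪ {v, s, t})ᶜ) ∧ u ∉ X := by
    by_contra hc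
    push Not at hc
    exact hXe (Set.Subset.antisymm hXM hc)
  obtain ⟨K, hKM, huK, hKc, hKcl⟩ := exists_comp G ((({a, p, d, n, b} : Set V) ∪ {v, s, t})ᶜ) u huM
  have hKX : ∀ y ∈ K, y ∉ X := by
    intro y hyK hyX
    obtain ⟨g, w, hgK, hwK, hgw, hgX, hwX⟩ := Cn.exit hKc (P := X) ⟨y, hyK, hyX⟩ ⟨u, huK, huX⟩
    exact hXcl w hwX ⟨g, hgX, hgw.symm⟩ (hKM hwK)
  have hKQ : ∀ y ∈ K, y ∉ ({a, p, d, n, b} : Set V) := fun y hy hy' => hKM hy (Or.inl hy')
  have hKT : ∀ y ∈ K, y ∉ ({v, s, t} : Set V) := fun y hy hy' => hKM hy (Or.inr hy')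
  refine ⟨{a, p, d, n, b}, K, piece_ok hG h hQ K hKc (Set.disjoint_left.2 hKQ)
    (fun e => hKT v e (by simp)) (fun e => hKT s e (by simp)) (fun e => hKT t e (by simp)) ?_
    (fun e => hKX q e hqX) ?_⟩
  · intro y hy hx
    by_contra hc
    apply hKcl y hy hx
    rintro (e | e)
    · exact hc (Or.inl e)
    · exact hc (Or.inr e)
  · intro y hy hpy
    rcases np y hpy with e | e | e | e | e | e
    · exact hKQ y hy (by simp [e])
    · exact hKX y hy (e ▸ hnX)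
    · exact hKX y hy (e ▸ hqX)
    · subst e
      exact hXcl y (hKX y hy) ⟨n', hnX, cn'⟩ (hKM hy)
    · exact hKQ y hy (by simp [e])
    · exact hKT y hy (by simp [e])

end Pool.Agent.LI6
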