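import Pool.Agent.LI6.Defs
import Pool.Agent.LI5.Piece
import Pool.Agent.LR5.Concl

/-!
LI6: if the complement of `{a, p, z, r, b} ∪ {v, s, t}` is connected, then there is a pair, or one of `s`, `t`
has no neighbour in it, and then this vertex is adjacent to `z` and to `r`.
-/

set_option autoImplicit false

namespace Pool.Agent.LI6

open Pool.Agent.LG6 Pool.Agent.LR5 Pool.Agent.LI5

variable {V : Type} {G : SimpleGraph V}

theorem kill6 [Fintype V] (hG : IsKConnected 6 G) {a b v s t p q z r : V}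
    (h : Cg6 G a b v s t p q) (hQ : Ad5 G a b v s t p q {a, p, z, r, b})
    (hc : Cn G ((({a, p, z, r, b} : Set V) ∪ {v, s, t})ᶜ)) :
    (∃ P C, Pa6 G a b v s t p q P C) ∨ ∃ x, (x = s ∨ x = t) ∧ G.Adj x z ∧ G.Adj x r ∧
      ∀ y, G.Adj x y → y = a ∨ y = b ∨ y = v ∨ y = s ∨ y = t ∨ y = z ∨ y = r := by
  have main : ∀ x x', ((x = s ∧ x' = t) ∨ (x = t ∧ x' = s)) →
      (¬ ∃ y ∈ ((({a, p, z, r, b} : Set V) ∪ {v, s, t})ᶜ), G.Adj x y) →
      G.Adj x z ∧ G.Adj x r ∧
      ∀ y, G.Adj x y → y = a ∨ y = b ∨ y = v ∨ y = s ∨ y = t ∨ y = z ∨ y = r := by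
    intro x x' hx hno
    have hnp : ¬ G.Adj x p := by
      rcases hx with ⟨rfl, -⟩ | ⟨rfl, -⟩
      · exact h.nsp
      · exact h.ntp
    have hall : ∀ y, G.Adj x y → y = a ∨ y = b ∨ y = v ∨ y = x' ∨ y = z ∨ y = r := by
      intro y hy
      by_contra hcon
      push Not at hcon
      refine hno ⟨y, ?_, hy⟩
      rintro ((e | e | e | e | e) | (e | e | e))
      · exact hcon.1 e
      · exact hnp (e ▸ hy)
      · exact hcon.2.2.2.2.1 e
      · exact hcon.2.2.2.2.2 e
      · exact hcon.2.1 e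
      · exact hcon.2.2.1 e
      · rcases hx with ⟨hx, -⟩ | ⟨-, hx⟩
        · exact hy.ne (hx.trans e.symm)
        · exact hcon.2.2.2.1 (e.trans hx.symm)
      · have e' : y = t := e
        rcases hx with ⟨-, hx⟩ | ⟨hx, -⟩
        · exact hcon.2.2.2.1 (e'.trans hx.symm)
        · exact hy.ne (hx.trans e'.symm)
    have hdeg : 6 ≤ ({y | G.Adj x y} : Set V).ncard := dg_ge hG x
    refine ⟨?_, ?_, ?_⟩
    · by_contra hc'
      refine ncard_five' (x₁ := a) (x₂ := b) (x₃ := v) (x₄ := x') (x₅ := r) hdeg ?_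
      intro y hy
      rcases hall y hy with e | e | e | e | e | e
      · simp [e]
      · simp [e]
      · simp [e]
      · simp [e]
      · exact absurd (e ▸ hy) hc'
      · simp [e]
    · by_contra hc'
      refine ncard_five' (x₁ := a) (x₂ := b) (x₃ := v) (x₄ := x') (x₅ := z) hdeg ?_
      intro y hy
      rcases hall y hy with e | e | e | e | e | e
      · simp [e]
      · simp [e]
      · simp [e]
      · simp [e]
      · simp [e]
      · exact absurd (e ▸ hy) hc'
    · intro y hy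
      rcases hall y hy with e | e | e | e | e | e
      · simp [e]
      · simp [e]
      · simp [e]
      · rcases hx with ⟨-, hx⟩ | ⟨-, hx⟩
        · simp [e, hx]
        · simp [e, hx]
      · simp [e]
      · simp [e]
  by_cases h1 : ∃ y ∈ ((({a, p, z, r, b} : Set V) ∪ {v, s, t})ᶜ), G.Adj s y
  · by_cases h2 : ∃ y ∈ ((({a, p, z, r, b} : Set V) ∪ {v, s, t})ᶜ), G.Adj t y
    · left
      refine ⟨{a, p, z, r, b}, _, hQ, hc, ?_, ?_, ?_, ?_, h1, h2⟩
      · rw [Set.disjoint_left]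
        exact fun y hy hy' => hy (Or.inl hy')
      · exact fun h' => h' (Or.inr (by simp))
      · exact fun h' => h' (Or.inr (by simp))
      · exact fun h' => h' (Or.inr (by simp))
    · exact Or.inr ⟨t, Or.inr rfl, main t s (Or.inr ⟨rfl, rfl⟩) h2⟩
  · exact Or.inr ⟨s, Or.inl rfl, main s t (Or.inl ⟨rfl, rfl⟩) h1⟩

end Pool.Agent.LI6
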