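import Pool.Agent.LI5.Piece
import Pool.Agent.LR5.Concl
import Pool.Agent.LI4.KNb

/-!
LI6: every 4-clique meets every strong edge.

Proof.  Let `x y` be strong and `w₁, w₂, w₃, w₄` a 4-clique avoiding it.  The component `K` of a vertex `u`
in the complement of these six vertices is adjacent to all the `w i`: if it is adjacent to all six
vertices there is nothing to show, otherwise some vertex outside `K` is not adjacent to `K` and
`LI4.nbhd6` applies.  So `w₁, w₂, w₃, w₄, K` is a `K₅` model avoiding `x, y`: `strong_no`.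
-/

set_option autoImplicit false

namespace Pool.Agent.LI6

open Pool.Agent.LG6 Pool.Agent.LR5 Pool.Agent.LI5

variable {V : Type} {G : SimpleGraph V}

theorem strong_k4 [Fintype V] (hG : IsKConnected 6 G) (hm : ¬ HasCompleteMinor 6 G) {x y : V}
    (h : Strong G x y) {w₁ w₂ w₃ w₄ : V} (e12 : G.Adj w₁ w₂) (e13 : G.Adj w₁ w₃)
    (e14 : G.Adj w₁ w₄) (e23 : G.Adj w₂ w₃) (e24 : G.Adj w₂ w₄) (e34 : G.Adj w₃ w₄)
    (n1 : w₁ ≠ x ∧ w₁ ≠ y) (n2 : w₂ ≠ x ∧ w₂ ≠ y) (n3 : w₃ ≠ x ∧ w₃ ≠ y) (n4 : w₄ ≠ x ∧ w₄ ≠ y) :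
    False := by
  classical
  obtain ⟨u, hu⟩ : ∃ u, u ∉ ({x, y, w₁, w₂, w₃, w₄} : Finset V) := by
    by_contra hno
    push Not at hno
    have h1 : Fintype.card V ≤ 6 := by
      calc Fintype.card V = (Finset.univ : Finset V).card := Finset.card_univ.symm
        _ ≤ ({x, y, w₁, w₂, w₃, w₄} : Finset V).card :=
            Finset.card_le_card (fun z _ => hno z)
        _ ≤ 6 := Finset.card_le_six
    have h2 : 7 ≤ Fintype.card V := hG.1
    omega
  simp only [Finset.mem_insert, Finset.mem_singleton, not_or] at hu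
  obtain ⟨K, hKM, huK, hKc, hKcl⟩ := exists_comp G
    {z | z ≠ x ∧ z ≠ y ∧ z ≠ w₁ ∧ z ≠ w₂ ∧ z ≠ w₃ ∧ z ≠ w₄} u hu
  have hnb : ∀ z, z ∉ K → (∃ c ∈ K, G.Adj z c) → z = x ∨ z = y ∨ z = w₁ ∨ z = w₂ ∨ z = w₃ ∨
      z = w₄ := by
    intro z hz hc
    by_contra hno
    push Not at hno
    exact hKcl z hz hc hno
  have hw : ∀ w, w = w₁ ∨ w = w₂ ∨ w = w₃ ∨ w = w₄ → ∃ c ∈ K, G.Adj w c := by
    intro w hw
    by_contra hc
    have hwK : w ∉ K := by
      intro h'
      have h2 := hKM h'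
      rcases hw with e | e | e | e
      · exact h2.2.2.1 e
      · exact h2.2.2.2.1 e
      · exact h2.2.2.2.2.1 e
      · exact h2.2.2.2.2.2 e
    have h6 := Pool.Agent.LI4.nbhd6 hG K ⟨u, huK⟩ w hwK (fun c hcK hwc => hc ⟨c, hcK, hwc⟩)
    rcases hw with e | e | e | e
    · refine ncard_five' (x₁ := x) (x₂ := y) (x₃ := w₂) (x₄ := w₃) (x₅ := w₄) h6 ?_
      rintro z ⟨hz, c, hcK, hzc⟩
      rcases hnb z hz ⟨c, hcK, hzc⟩ with f | f | f | f | f | f
      · simp [f]
      · simp [f]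
      · exact absurd ⟨c, hcK, (f.trans e.symm) ▸ hzc⟩ hc
      all_goals simp [f]
    · refine ncard_five' (x₁ := x) (x₂ := y) (x₃ := w₁) (x₄ := w₃) (x₅ := w₄) h6 ?_
      rintro z ⟨hz, c, hcK, hzc⟩
      rcases hnb z hz ⟨c, hcK, hzc⟩ with f | f | f | f | f | f
      · simp [f]
      · simp [f]
      · simp [f]
      · exact absurd ⟨c, hcK, (f.trans e.symm) ▸ hzc⟩ hc
      all_goals simp [f]
    · refine ncard_five' (x₁ := x) (x₂ := y) (x₃ := w₁) (x₄ := w₂) (x₅ := w₄) h6 ?_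
      rintro z ⟨hz, c, hcK, hzc⟩
      rcases hnb z hz ⟨c, hcK, hzc⟩ with f | f | f | f | f | f
      · simp [f]
      · simp [f]
      · simp [f]
      · simp [f]
      · exact absurd ⟨c, hcK, (f.trans e.symm) ▸ hzc⟩ hc
      · simp [f]
    · refine ncard_five' (x₁ := x) (x₂ := y) (x₃ := w₁) (x₄ := w₂) (x₅ := w₃) h6 ?_
      rintro z ⟨hz, c, hcK, hzc⟩
      rcases hnb z hz ⟨c, hcK, hzc⟩ with f | f | f | f | f | f
      · simp [f]
      · simp [f]
      · simp [f]
      · simp [f]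
      · simp [f]
      · exact absurd ⟨c, hcK, (f.trans e.symm) ▸ hzc⟩ hc
  have hxK : x ∉ K := fun h' => (hKM h').1 rfl
  have hyK : y ∉ K := fun h' => (hKM h').2.1 rfl
  -- the model
  have hadj : ∀ i j : Fin 4, i ≠ j →
      G.Adj ((![w₁, w₂, w₃, w₄] : Fin 4 → V) i) ((![w₁, w₂, w₃, w₄] : Fin 4 → V) j) := by
    intro i j hij
    fin_cases i <;> fin_cases j
    · exact absurd rfl hij
    · exact e12
    · exact e13
    · exact e14
    · exact e12.symm
    · exact absurd rfl hij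
    · exact e23
    · exact e24
    · exact e13.symm
    · exact e23.symm
    · exact absurd rfl hij
    · exact e34
    · exact e14.symm
    · exact e24.symm
    · exact e34.symm
    · exact absurd rfl hij
  have hmem : ∀ i : Fin 4, (![w₁, w₂, w₃, w₄] : Fin 4 → V) i = w₁ ∨
      (![w₁, w₂, w₃, w₄] : Fin 4 → V) i = w₂ ∨ (![w₁, w₂, w₃, w₄] : Fin 4 → V) i = w₃ ∨
      (![w₁, w₂, w₃, w₄] : Fin 4 → V) i = w₄ := by
    intro i
    fin_cases i
    · exact Or.inl rfl
    · exact Or.inr (Or.inl rfl)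
    · exact Or.inr (Or.inr (Or.inl rfl))
    · exact Or.inr (Or.inr (Or.inr rfl))
  have hnK : ∀ i : Fin 4, (![w₁, w₂, w₃, w₄] : Fin 4 → V) i ∉ K := by
    intro i h'
    have h2 := hKM h'
    rcases hmem i with e | e | e | e
    · exact h2.2.2.1 e
    · exact h2.2.2.2.1 e
    · exact h2.2.2.2.2.1 e
    · exact h2.2.2.2.2.2 e
  have hnxy : ∀ i : Fin 4, (![w₁, w₂, w₃, w₄] : Fin 4 → V) i ≠ x ∧
      (![w₁, w₂, w₃, w₄] : Fin 4 → V) i ≠ y := by
    intro i
    fin_cases i
    · exact n1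
    · exact n2
    · exact n3
    · exact n4
  refine strong_no hG hm h ⟨Fin.snoc (α := fun _ => Set V)
    (fun i : Fin 4 => ({(![w₁, w₂, w₃, w₄] : Fin 4 → V) i} : Set V)) K, ⟨?_, ?_, ?_⟩, ?_⟩
  · intro i
    refine Fin.lastCases ?_ (fun i => ?_) i
    · rw [Fin.snoc_last]
      exact hKc
    · rw [Fin.snoc_castSucc]
      exact cn_single G _
  · intro i j
    refine Fin.lastCases ?_ (fun i => ?_) i <;> refine Fin.lastCases ?_ (fun j => ?_) j
    · intro hij
      exact absurd rfl hij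
    · intro hij
      rw [Fin.snoc_last, Fin.snoc_castSucc]
      rw [Set.disjoint_singleton_right]
      exact hnK j
    · intro hij
      rw [Fin.snoc_last, Fin.snoc_castSucc]
      rw [Set.disjoint_singleton_left]
      exact hnK i
    · intro hij
      rw [Fin.snoc_castSucc, Fin.snoc_castSucc, Set.disjoint_singleton]
      exact (hadj i j (fun e => hij (by rw [e]))).ne
  · intro i j
    refine Fin.lastCases ?_ (fun i => ?_) i <;> refine Fin.lastCases ?_ (fun j => ?_) j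
    · intro hij
      exact absurd rfl hij
    · intro hij
      rw [Fin.snoc_last, Fin.snoc_castSucc]
      obtain ⟨c, hc, hwc⟩ := hw _ (hmem j)
      exact ⟨c, hc, _, rfl, hwc.symm⟩
    · intro hij
      rw [Fin.snoc_last, Fin.snoc_castSucc]
      obtain ⟨c, hc, hwc⟩ := hw _ (hmem i)
      exact ⟨_, rfl, c, hc, hwc⟩
    · intro hij
      rw [Fin.snoc_castSucc, Fin.snoc_castSucc]
      exact ⟨_, rfl, _, rfl, hadj i j (fun e => hij (by rw [e]))⟩
  · intro i
    refine Fin.lastCases ?_ (fun i => ?_) i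
    · rw [Fin.snoc_last, Set.disjoint_left]
      rintro z hz (e | e)
      · exact hxK (e ▸ hz)
      · exact hyK (e ▸ hz)
    · rw [Fin.snoc_castSucc, Set.disjoint_singleton_left]
      rintro (e | e)
      · exact (hnxy i).1 e
      · exact (hnxy i).2 e

end Pool.Agent.LI6
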