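import Pool.Agent.LI6.LemB
import Pool.Agent.LI6.AAb
import Pool.Agent.LI6.ANm
import Pool.Agent.LI6.Kill
import Pool.Agent.LI6.StrongK4
import Pool.Agent.LI5.Asm

/-!
LI6: if `T2 G v s t a b a' b'` and `a'`, `b'` are centres of no claw, there is a `K₆` minor.
-/

set_option autoImplicit false

namespace Pool.Agent.LI6

open Pool.Agent.LG6 Pool.Agent.LR5 Pool.Agent.LD6 Pool.Agent.LI4 Pool.Agent.LI5

variable {V : Type} {G : SimpleGraph V}

theorem cg6_of {v s t a b a' b' : V} (Av : At G v) (h : T2 G v s t a b a' b') :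
    Cg6 G a b v s t a' b' where
  vs := h.vs
  vt := h.vt
  st := h.st
  av := h.va.symm
  as := h.sa.symm
  at' := h.ta.symm
  bv := h.vb.symm
  bs := h.sb.symm
  bt := h.tb.symm
  nab := h.nab
  ab := h.ne.2.2.2.2.1
  nv := t2_all Av h
  vp := h.va'
  vq := h.vb'
  pq := h.ab'
  ap := h.aa'
  bq := h.bb'
  naq := h.nab'
  nbp := h.nba'
  nsp := h.nsa
  nsq := h.nsb
  ntp := h.nta
  ntq := h.ntb
  ps := h.ne.1.symm
  pt := h.ne.2.2.1.symm
  qs := h.ne.2.1.symm
  qt := h.ne.2.2.2.1.symm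

/-- abnormal case -/
theorem ab_stepA [Fintype V] (hG : IsKConnected 6 G) {v s t a b a' b' n n' c d : V} (Aa' : At G a')
    (Ab' : At G b') (h : T2 G v s t a b a' b') (k : T2 G a' n n' b' c v a)
    (l : T2 G b' n n' a' d v b) (g : Cg6 G a b v s t a' b') :
    ∃ P C, Pa6 G a b v s t a' b' P C := by
  have np : ∀ y, G.Adj a' y → y = n ∨ y = n' ∨ y = b' ∨ y = c ∨ y = a ∨ y = v := by
    intro y hy
    rcases t2_all Aa' k y hy with e | e | e | e | e | e <;> simp [e]
  have nq : ∀ y, G.Adj b' y → y = n' ∨ y = n ∨ y = a' ∨ y = d ∨ y = b ∨ y = v := by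
    intro y hy
    rcases t2_all Ab' l y hy with e | e | e | e | e | e <;> simp [e]
  have q1 : Ad5 G a b v s t a' b' {a, a', d, n, b} := ab_ad h k l
  have q2 : Ad5 G a b v s t a' b' {a, a', d, n', b} := ab_ad h k.swap l.swap
  have q3 : Ad5 G b a v s t b' a' {b, b', c, n', a} := ab_ad h.rev l.swap k.swap
  have c1 := conn_ab6 hG g q1 np l.vs l.vt k.tb.symm (ab_not h k.swap l.swap) l.vb.ne
  have c2 := conn_ab6 hG g q2 (fun y hy => by
    rcases np y hy with e | e | e | e | e | e <;> simp [e]) l.vt l.vs k.sb.symm (ab_not h k l)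
    l.vb.ne
  have c3 := conn_ab6 hG g.swap q3 nq k.vt k.vs l.sb.symm (ab_not h.rev l k) k.vb.ne
  rcases c1 with c1 | c1
  · exact c1
  rcases c2 with c2 | c2
  · exact c2
  rcases c3 with ⟨P, C, c3⟩ | c3
  · exact ⟨P, C, c3.swap⟩
  rcases kill6 hG g q1 c1 with k1 | ⟨x, hx, xd, xn, xa⟩
  · exact k1
  rcases kill6 hG g q2 c2 with k2 | ⟨y, hy, yd, yn, ya⟩
  · exact k2
  rcases kill6 hG g.swap q3 c3 with ⟨P, C, k3⟩ | ⟨z, hz, zc, zn, za⟩
  · exact ⟨P, C, k3.swap⟩
  exfalso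
  -- `n'` is not adjacent to `x`
  have hxn : ¬ G.Adj x n' := by
    intro e
    have h1 := ab_not h k.swap l.swap
    rcases xa n' e with f | f | f | f | f | f | f
    · exact h1 (Or.inl (by simp [f]))
    · exact h1 (Or.inl (by simp [f]))
    · exact h1 (Or.inr (by simp [f]))
    · exact h1 (Or.inr (by simp [f]))
    · exact h1 (Or.inr (by simp [f]))
    · exact l.tb.ne f
    · exact k.st.ne f.symm
  -- `d` is not adjacent to `z`
  have hzd : ¬ G.Adj z d := by
    intro e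
    rcases za d e with f | f | f | f | f | f | f
    · exact l.bb'.ne f
    · exact l.nab (f ▸ h.aa'.symm)
    · exact l.ne.2.2.2.2.2.2 f
    · exact h.nsb (f ▸ l.vb.symm)
    · exact h.ntb (f ▸ l.vb.symm)
    · exact k.nab (f ▸ l.vb)
    · exact l.tb.ne f.symm
  have hxy : x ≠ y := fun e => hxn (e ▸ yn)
  have hxz : x ≠ z := fun e => hxn (e ▸ zn)
  have hyz : y ≠ z := fun e => hzd (e ▸ yd)
  rcases hx with rfl | rfl <;> rcases hy with rfl | rfl <;> rcases hz with rfl | rfl <;>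
    first
      | exact hxy rfl
      | exact hxz rfl
      | exact hyz rfl

theorem sq_ne {v s t a b a' b' n n' c m m' : V} (h : T2 G v s t a b a' b')
    (k : T2 G a' n n' a c v b') (l : T2 G b' m m' b c v a') :
    n ∉ ({a, a', c, m, m', b} : Set V) ∪ {v, s, t} := by
  rintro ((e | e | e | e | e | e) | (e | e | e))
  · exact k.sa.ne e
  · exact k.vs.ne' e
  · exact k.sb.ne e
  · exact k.nsb (e ▸ l.vs.symm)
  · exact k.nsb (e ▸ l.vt.symm)
  · exact h.nba' (e ▸ k.vs.symm)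
  · exact k.ne.1 e
  · exact h.nsa (e ▸ k.vs.symm)
  · have e' : n = t := e
    exact h.nta (e' ▸ k.vs.symm)

theorem m_ne {v s t a b a' b' m m' c : V} (h : T2 G v s t a b a' b')
    (l : T2 G b' m m' b c v a') :
    m ∉ ({a, a', c, m', b} : Set V) ∪ {v, s, t} := by
  rintro ((e | e | e | e | e) | (e | e | e))
  · exact h.nab' (e ▸ l.vs.symm)
  · exact l.ntb (e ▸ l.st.symm)
  · exact l.sb.ne e
  · exact l.st.ne e
  · exact l.sa.ne e
  · exact l.ne.1 e
  · exact h.nsb (e ▸ l.vs.symm)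
  · have e' : m = t := e
    exact h.ntb (e' ▸ l.vs.symm)

/-- normal case, the last step -/
theorem nm_end [Fintype V] (hG : IsKConnected 6 G) (hm : ¬ HasCompleteMinor 6 G)
    {v s t a b a' b' n n' c m m' : V} (h : T2 G v s t a b a' b') (k : T2 G a' n n' a c v b')
    (l : T2 G b' m m' b c v a') (g : Cg6 G a b v s t a' b')
    (c1 : Cn G ((({a, a', c, m, b} : Set V) ∪ {v, s, t})ᶜ))
    (c2 : Cn G ((({b, b', c, n, a} : Set V) ∪ {v, s, t})ᶜ)) :
    ∃ P C, Pa6 G a b v s t a' b' P C := by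
  rcases kill6 hG g (nm_ad h k l) c1 with k1 | ⟨x, hx, xc, xm, xa⟩
  · exact k1
  rcases kill6 hG g.swap (nm_ad h.rev l k) c2 with ⟨P, C, k2⟩ | ⟨y, hy, yc, yn, ya⟩
  · exact ⟨P, C, k2.swap⟩
  exfalso
  have hxy : x ≠ y := by
    intro e
    have h1 := sq_ne h k l
    rcases xa n (e ▸ yn) with f | f | f | f | f | f | f
    · exact h1 (Or.inl (by simp [f]))
    · exact h1 (Or.inl (by simp [f]))
    · exact h1 (Or.inr (by simp [f]))
    · exact h1 (Or.inr (by simp [f]))
    · exact h1 (Or.inr (by simp [f]))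
    · exact h1 (Or.inl (by simp [f]))
    · exact h1 (Or.inl (by simp [f]))
  have hsc : G.Adj s c ∧ G.Adj t c := by
    rcases hx with rfl | rfl <;> rcases hy with rfl | rfl
    · exact absurd rfl hxy
    · exact ⟨xc, yc⟩
    · exact ⟨yc, xc⟩
    · exact absurd rfl hxy
  classical
  have hst : Strong G s t := by
    refine ⟨h.st, Or.inl ⟨{v, a, b, c}, ?_, ?_⟩⟩
    · rw [Finset.card_insert_of_notMem, Finset.card_insert_of_notMem,
        Finset.card_insert_of_notMem, Finset.card_singleton]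
      · simp only [Finset.mem_singleton]
        exact l.ne.2.2.2.2.1
      · simp only [Finset.mem_insert, Finset.mem_singleton, not_or]
        exact ⟨h.ne.2.2.2.2.1, k.ne.2.2.2.2.1⟩
      · simp only [Finset.mem_insert, Finset.mem_singleton, not_or]
        exact ⟨h.va.ne, h.vb.ne, k.ne.2.2.2.2.2.2.symm⟩
    · intro w hw
      simp only [Finset.mem_insert, Finset.mem_singleton] at hw
      rcases hw with rfl | rfl | rfl | rfl
      · exact ⟨h.vs.symm, h.vt.symm⟩
      · exact ⟨h.sa, h.ta⟩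
      · exact ⟨h.sb, h.tb⟩
      · exact hsc
  refine strong_k4 hG hm hst k.vs k.vt k.va k.st k.sa k.ta ⟨h.ne.1.symm, h.ne.2.2.1.symm⟩
    ⟨fun e => h.nsa (e ▸ k.vs.symm), fun e => h.nta (e ▸ k.vs.symm)⟩
    ⟨fun e => h.nsa (e ▸ k.vt.symm), fun e => h.nta (e ▸ k.vt.symm)⟩
    ⟨h.sa.ne', h.ta.ne'⟩

/-- normal case -/
theorem nm_stepA [Fintype V] (hG : IsKConnected 6 G) (hm : ¬ HasCompleteMinor 6 G)
    {v s t a b a' b' n n' c m m' : V} (Aa' : At G a')
    (Ab' : At G b') (h : T2 G v s t a b a' b') (k : T2 G a' n n' a c v b')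
    (l : T2 G b' m m' b c v a') (g : Cg6 G a b v s t a' b') :
    ∃ P C, Pa6 G a b v s t a' b' P C := by
  have r1 := half6 hG g (nm_ad h k l) (nm_ad h k l.swap) (t2_all Aa' k) k.st l.vb l.vs l.vt l.st.ne
    (sq_ne h k l) (sq_ne h k.swap l) (m_ne h l)
  have r2 := half6 hG g.swap (nm_ad h.rev l k) (nm_ad h.rev l k.swap) (t2_all Ab' l) l.st k.vb
    k.vs k.vt k.st.ne (sq_ne h.rev l k) (sq_ne h.rev l.swap k) (m_ne h.rev k)
  rcases r1 with r1 | r1
  · exact r1
  rcases r2 with ⟨P, C, r2⟩ | r2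
  · exact ⟨P, C, r2.swap⟩
  rcases r1 with r1 | r1 <;> rcases r2 with r2 | r2
  · exact nm_end hG hm h k l g r1 r2
  · exact nm_end hG hm h k.swap l g r1 r2
  · exact nm_end hG hm h k l.swap g r1 r2
  · exact nm_end hG hm h k.swap l.swap g r1 r2

end Pool.Agent.LI6
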