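import Pool.Agent.LI6.Defs
import Pool.Agent.LI4.KNb

/-!
LI5: case 1 (proof).
-/

set_option autoImplicit false

namespace Pool.Agent.LI6

open Pool.Agent.LG6 Pool.Agent.LR5 Pool.Agent.LI5

variable {V : Type} {G : SimpleGraph V}

theorem case1 [Fintype V] (hG : IsKConnected 6 G) {a b v s t p q z r r' w l l' : V}
    (h : Cg6 G a b v s t p q) (hR : Rt G a b v s t p q z r r')
    (_hL : Rt G b a v s t q p w l l') {P C : Set V} (o : Op6 G a b v s t p q P C)
    (h1 : p ∉ C) (h2 : q ∉ C) (h3 : p ∉ P) (h4 : q ∉ P) : False := by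
  classical
  have hPC : ∀ y, y ∈ P → y ∉ C := fun y hy hy' => Set.disjoint_left.1 o.pa.cP hy' hy
  have haC : a ∉ C := hPC a o.pa.adm.2.1
  have hbC : b ∉ C := hPC b o.pa.adm.2.2.1
  have hp : ∀ u ∈ C, ¬ G.Adj p u := fun u hu hu' =>
    h3 (o.star P o.pa.adm o.pa.cP p h1 h.vp.ne' h.ps h.pt ⟨u, hu, hu'⟩)
  have hq : ∀ u ∈ C, ¬ G.Adj q u := fun u hu hu' =>
    h4 (o.star P o.pa.adm o.pa.cP q h2 h.vq.ne' h.qs h.qt ⟨u, hu, hu'⟩)
  have hzC : z ∉ C := fun hc => hq _ hc hR.qz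
  have hrC : r ∉ C := fun hc => hq _ hc hR.qr
  have hrC' : r' ∉ C := fun hc => hq _ hc hR.qr'
  have hD1 : Disjoint C ({a, p, z, r, b} : Set V) := by
    rw [Set.disjoint_right]
    intro y hy
    simp only [Set.mem_insert_iff, Set.mem_singleton_iff] at hy
    rcases hy with rfl | rfl | rfl | rfl | rfl <;> assumption
  have hD2 : Disjoint C ({a, p, z, r', b} : Set V) := by
    rw [Set.disjoint_right]
    intro y hy
    simp only [Set.mem_insert_iff, Set.mem_singleton_iff] at hy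
    rcases hy with rfl | rfl | rfl | rfl | rfl <;> assumption
  have hv : ∀ u ∈ C, ¬ G.Adj v u := by
    intro u hu hu'
    rcases h.nv u hu' with e | e | e | e | e | e
    · exact o.pa.sC (e ▸ hu)
    · exact o.pa.tC (e ▸ hu)
    · exact haC (e ▸ hu)
    · exact hbC (e ▸ hu)
    · exact h1 (e ▸ hu)
    · exact h2 (e ▸ hu)
  have h6 := Pool.Agent.LI4.nbhd6 hG C (Set.nonempty_coe_sort.1 o.pa.cc.nonempty) v o.pa.vC hv
  have hsub : ({y | y ∉ C ∧ ∃ u ∈ C, G.Adj y u} : Set V) ⊆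
      (({a, b, z, s, t} : Finset V) : Set V) := by
    rintro y ⟨hyC, hyu⟩
    simp only [Finset.coe_insert, Finset.coe_singleton, Set.mem_insert_iff,
      Set.mem_singleton_iff]
    by_cases hys : y = s
    · simp [hys]
    by_cases hyt : y = t
    · simp [hyt]
    have hyv : y ≠ v := by
      rintro rfl
      obtain ⟨u, hu, hu'⟩ := hyu
      exact hv u hu hu'
    have e1 := o.star _ hR.a1 hD1 y hyC hyv hys hyt hyu
    have e2 := o.star _ hR.a2 hD2 y hyC hyv hys hyt hyu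
    obtain ⟨u, hu, hu'⟩ := hyu
    simp only [Set.mem_insert_iff, Set.mem_singleton_iff] at e1 e2
    rcases e1 with e1 | e1 | e1 | e1 | e1
    · simp [e1]
    · exact (hp u hu (e1 ▸ hu')).elim
    · simp [e1]
    · rcases e2 with e2 | e2 | e2 | e2 | e2
      · simp [e2]
      · exact (hp u hu (e2 ▸ hu')).elim
      · simp [e2]
      · exact (hR.rr (e1.symm.trans e2)).elim
      · simp [e2]
    · simp [e1]
  have h5 : ({y | y ∉ C ∧ ∃ u ∈ C, G.Adj y u} : Set V).ncard ≤ 5 := by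
    refine le_trans (Set.ncard_le_ncard hsub (Finset.finite_toSet _)) ?_
    rw [Set.ncard_coe_finset]
    exact Finset.card_le_five
  omega

end Pool.Agent.LI6
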