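import Pool.Agent.LI6.Six
import Pool.Agent.LI5.Piece
import Pool.Agent.LI4.KNb

/-!
LI6: case 2: neither `p` nor `q` lies in `C`, and `p ∈ P`.

Proof.  As in LI5 the set `S` of the vertices adjacent to `C` is `{a, p, z, b, s, t}`.  Let `K` be the
component of `q` in the complement of `C ∪ {a, p, z, b, s, t, v}`.  Its neighbours are among the seven
vertices `a, p, z, b, s, t, v`, and there are at least six of them.  If `a` is adjacent to `K`, then
`{a, b} ∪ K` is admissible and disjoint from `C`, but does not contain `p`: contradiction to `star`.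
Otherwise `s` and `t` are adjacent to `K`, and `v, s, t, a, C ∪ {b}, K ∪ {p}` form a `K₆` model.
-/

set_option autoImplicit false

namespace Pool.Agent.LI6

open Pool.Agent.LG6 Pool.Agent.LR5 Pool.Agent.LI5

variable {V : Type} {G : SimpleGraph V}

theorem case2 [Fintype V] (hG : IsKConnected 6 G) {a b v s t p q z r r' : V}
    (h : Cg6 G a b v s t p q) (hR : Rt G a b v s t p q z r r')
    {P C : Set V} (o : Op6 G a b v s t p q P C)
    (h1 : p ∉ C) (h2 : q ∉ C) (h3 : p ∈ P) : HasCompleteMinor 6 G := by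
  classical
  obtain ⟨hPc, haP, hbP, hvP, hsP, htP, hPpq⟩ := o.pa.adm
  have hqP : q ∉ P := fun h' => hPpq ⟨h3, h'⟩
  have hqv : q ≠ v := h.vq.ne'
  have hqC : ∀ y ∈ C, ¬ G.Adj q y := fun y hy hqy =>
    hqP (o.star P o.pa.adm o.pa.cP q h2 hqv h.qs h.qt ⟨y, hy, hqy⟩)
  have hzC : z ∉ C := fun h' => hqC _ h' hR.qz
  have hrC : r ∉ C := fun h' => hqC _ h' hR.qr
  have hrC' : r' ∉ C := fun h' => hqC _ h' hR.qr'
  have haC : a ∉ C := fun h' => Set.disjoint_left.1 o.pa.cP h' haP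
  have hbC : b ∉ C := fun h' => Set.disjoint_left.1 o.pa.cP h' hbP
  have hd1 : Disjoint C ({a, p, z, r, b} : Set V) := by
    rw [Set.disjoint_left]
    rintro y hy (rfl | rfl | rfl | rfl | rfl)
    · exact haC hy
    · exact h1 hy
    · exact hzC hy
    · exact hrC hy
    · exact hbC hy
  have hd2 : Disjoint C ({a, p, z, r', b} : Set V) := by
    rw [Set.disjoint_left]
    rintro y hy (rfl | rfl | rfl | rfl | rfl)
    · exact haC hy
    · exact h1 hy
    · exact hzC hy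
    · exact hrC' hy
    · exact hbC hy
  have hvC : ∀ y ∈ C, ¬ G.Adj v y := by
    intro y hy hvy
    rcases h.nv y hvy with rfl | rfl | rfl | rfl | rfl | rfl
    · exact o.pa.sC hy
    · exact o.pa.tC hy
    · exact haC hy
    · exact hbC hy
    · exact h1 hy
    · exact h2 hy
  -- a vertex with a neighbour in `C`
  have hnb : ∀ y w, w ∈ C → G.Adj y w → y ∉ C →
      y = a ∨ y = p ∨ y = z ∨ y = b ∨ y = s ∨ y = t := by
    intro y w hw hyw hyC
    by_cases hys : y = s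
    · simp [hys]
    by_cases hyt : y = t
    · simp [hyt]
    have hyv : y ≠ v := by
      rintro rfl
      exact hvC w hw hyw
    have k1 := o.star _ hR.a1 hd1 y hyC hyv hys hyt ⟨w, hw, hyw⟩
    have k2 := o.star _ hR.a2 hd2 y hyC hyv hys hyt ⟨w, hw, hyw⟩
    rcases k1 with k1 | k1 | k1 | k1 | k1
    · exact Or.inl k1
    · exact Or.inr (Or.inl k1)
    · exact Or.inr (Or.inr (Or.inl k1))
    · rcases k2 with k2 | k2 | k2 | k2 | k2
      · exact Or.inl k2
      · exact Or.inr (Or.inl k2)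
      · exact Or.inr (Or.inr (Or.inl k2))
      · exact absurd (k1.symm.trans k2) hR.rr
      · exact Or.inr (Or.inr (Or.inr (Or.inl k2)))
    · exact Or.inr (Or.inr (Or.inr (Or.inl k1)))
  obtain ⟨u₀, hu₀⟩ := o.pa.cc.ne
  have h6 := Pool.Agent.LI4.nbhd6 hG C ⟨u₀, hu₀⟩ v o.pa.vC hvC
  -- all six are adjacent to `C`
  have hall : (∃ u ∈ C, G.Adj a u) ∧ (∃ u ∈ C, G.Adj p u) ∧ (∃ u ∈ C, G.Adj b u) := by
    refine ⟨?_, ?_, ?_⟩
    · by_contra hc
      refine ncard_five' (x₁ := p) (x₂ := z) (x₃ := b) (x₄ := s) (x₅ := t) h6 ?_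
      rintro y ⟨hy, u, hu, hyu⟩
      rcases hnb y u hu hyu hy with e | e | e | e | e | e
      · exact absurd ⟨u, hu, e ▸ hyu⟩ hc
      all_goals simp [e]
    · by_contra hc
      refine ncard_five' (x₁ := a) (x₂ := z) (x₃ := b) (x₄ := s) (x₅ := t) h6 ?_
      rintro y ⟨hy, u, hu, hyu⟩
      rcases hnb y u hu hyu hy with e | e | e | e | e | e
      · simp [e]
      · exact absurd ⟨u, hu, e ▸ hyu⟩ hc
      all_goals simp [e]
    · by_contra hc
      refine ncard_five' (x₁ := a) (x₂ := p) (x₃ := z) (x₄ := s) (x₅ := t) h6 ?_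
      rintro y ⟨hy, u, hu, hyu⟩
      rcases hnb y u hu hyu hy with e | e | e | e | e | e
      · simp [e]
      · simp [e]
      · simp [e]
      · exact absurd ⟨u, hu, e ▸ hyu⟩ hc
      all_goals simp [e]
  obtain ⟨haC', hpC', hbC'⟩ := hall
  -- the component of `q`
  have hqa : q ≠ a := by
    rintro rfl
    exact h.nab h.bq.symm
  obtain ⟨K, hKM, hqK, hKc, hKcl⟩ := exists_comp G
    {y | y ∉ C ∧ y ≠ a ∧ y ≠ p ∧ y ≠ z ∧ y ≠ b ∧ y ≠ s ∧ y ≠ t ∧ y ≠ v} q
    ⟨h2, hqa, h.pq.ne', hR.qz.ne, h.bq.ne', h.qs, h.qt, hqv⟩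
  have hKC : ∀ y ∈ C, y ∉ K := fun y hy hyK => (hKM hyK).1 hy
  have hCK : ∀ y ∈ C, ∀ u ∈ K, ¬ G.Adj y u := by
    intro y hy u hu hyu
    have hu' := hKM hu
    rcases hnb u y hy hyu.symm hu'.1 with e | e | e | e | e | e
    · exact hu'.2.1 e
    · exact hu'.2.2.1 e
    · exact hu'.2.2.2.1 e
    · exact hu'.2.2.2.2.1 e
    · exact hu'.2.2.2.2.2.1 e
    · exact hu'.2.2.2.2.2.2.1 e
  have hKnb : ∀ y, y ∉ K → (∃ u ∈ K, G.Adj y u) →
      y = a ∨ y = p ∨ y = z ∨ y = b ∨ y = s ∨ y = t ∨ y = v := by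
    intro y hy hu
    by_contra hno
    push Not at hno
    refine hKcl y hy hu ⟨fun hyC => ?_, hno⟩
    obtain ⟨u, hu, hyu⟩ := hu
    exact hCK y hyC u hu hyu
  have h6K := Pool.Agent.LI4.nbhd6 hG K ⟨q, hqK⟩ u₀ (hKC u₀ hu₀) (hCK u₀ hu₀)
  have haK : a ∉ K := fun h' => (hKM h').2.1 rfl
  have hpK : p ∉ K := fun h' => (hKM h').2.2.1 rfl
  have hbK : b ∉ K := fun h' => (hKM h').2.2.2.2.1 rfl
  have hsK : s ∉ K := fun h' => (hKM h').2.2.2.2.2.1 rfl
  have htK : t ∉ K := fun h' => (hKM h').2.2.2.2.2.2.1 rfl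
  have hvK : v ∉ K := fun h' => (hKM h').2.2.2.2.2.2.2 rfl
  have hpa : p ≠ a := h.ap.ne'
  have hpb : p ≠ b := by
    rintro rfl
    exact h.nab h.ap
  have hna : ¬ ∃ u ∈ K, G.Adj a u := by
    rintro ⟨u, hu, hau⟩
    have hc : Cn G (insert a (insert b K)) :=
      Cn.insert (Cn.insert hKc ⟨q, hqK, h.bq⟩) ⟨u, Set.mem_insert_of_mem b hu, hau⟩
    have hadm : Ad5 G a b v s t p q (insert a (insert b K)) := by
      refine ⟨hc, Or.inl rfl, Or.inr (Or.inl rfl), ?_, ?_, ?_, ?_⟩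
      · rintro (e | e | e)
        · exact h.av.ne e.symm
        · exact h.bv.ne e.symm
        · exact hvK e
      · rintro (e | e | e)
        · exact h.as.ne e.symm
        · exact h.bs.ne e.symm
        · exact hsK e
      · rintro (e | e | e)
        · exact h.at'.ne e.symm
        · exact h.bt.ne e.symm
        · exact htK e
      · rintro ⟨e | e | e, -⟩
        · exact hpa e
        · exact hpb e
        · exact hpK e
    have hdj : Disjoint C (insert a (insert b K)) := by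
      rw [Set.disjoint_left]
      rintro y hy (e | e | e)
      · exact haC (e ▸ hy)
      · exact hbC (e ▸ hy)
      · exact hKC y hy e
    rcases o.star _ hadm hdj p h1 h.vp.ne' h.ps h.pt hpC' with e | e | e
    · exact hpa e
    · exact hpb e
    · exact hpK e
  have hsK' : ∃ u ∈ K, G.Adj s u := by
    by_contra hc
    refine ncard_five' (x₁ := p) (x₂ := z) (x₃ := b) (x₄ := t) (x₅ := v) h6K ?_
    rintro y ⟨hy, u, hu, hyu⟩
    rcases hKnb y hy ⟨u, hu, hyu⟩ with e | e | e | e | e | e | e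
    · exact absurd ⟨u, hu, e ▸ hyu⟩ hna
    · simp [e]
    · simp [e]
    · simp [e]
    · exact absurd ⟨u, hu, e ▸ hyu⟩ hc
    all_goals simp [e]
  have htK' : ∃ u ∈ K, G.Adj t u := by
    by_contra hc
    refine ncard_five' (x₁ := p) (x₂ := z) (x₃ := b) (x₄ := s) (x₅ := v) h6K ?_
    rintro y ⟨hy, u, hu, hyu⟩
    rcases hKnb y hy ⟨u, hu, hyu⟩ with e | e | e | e | e | e | e
    · exact absurd ⟨u, hu, e ▸ hyu⟩ hna
    · simp [e]
    · simp [e]
    · simp [e]
    · simp [e]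
    · exact absurd ⟨u, hu, e ▸ hyu⟩ hc
    · simp [e]
  refine six6 (X := insert b C) (Y := insert p K) h.vs h.vt h.st h.av.symm h.as.symm h.at'.symm
    (Cn.insert o.pa.cc hbC') (Cn.insert hKc ⟨q, hqK, h.pq⟩) ?_ ?_ ?_ ?_ ?_ ?_
  · refine ⟨?_, ?_, ?_, ?_⟩
    · rintro (e | e)
      · exact h.bv.ne e.symm
      · exact o.pa.vC e
    · rintro (e | e)
      · exact h.bs.ne e.symm
      · exact o.pa.sC e
    · rintro (e | e)
      · exact h.bt.ne e.symm
      · exact o.pa.tC e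
    · rintro (e | e)
      · exact h.ab e
      · exact haC e
  · refine ⟨?_, ?_, ?_, ?_⟩
    · rintro (e | e)
      · exact h.vp.ne e
      · exact hvK e
    · rintro (e | e)
      · exact h.ps e.symm
      · exact hsK e
    · rintro (e | e)
      · exact h.pt e.symm
      · exact htK e
    · rintro (e | e)
      · exact hpa e.symm
      · exact haK e
  · rw [Set.disjoint_left]
    rintro y (e | e) (f | f)
    · exact hpb (f.symm.trans e)
    · exact hbK (e ▸ f)
    · exact h1 (f ▸ e)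
    · exact hKC y e f
  · refine ⟨⟨b, Or.inl rfl, h.bv.symm⟩, ⟨b, Or.inl rfl, h.bs.symm⟩, ⟨b, Or.inl rfl, h.bt.symm⟩, ?_⟩
    obtain ⟨u, hu, hau⟩ := haC'
    exact ⟨u, Or.inr hu, hau⟩
  · refine ⟨⟨p, Or.inl rfl, h.vp⟩, ?_, ?_, ⟨p, Or.inl rfl, h.ap⟩⟩
    · obtain ⟨u, hu, hau⟩ := hsK'
      exact ⟨u, Or.inr hu, hau⟩
    · obtain ⟨u, hu, hau⟩ := htK'
      exact ⟨u, Or.inr hu, hau⟩
  · exact ⟨b, Or.inl rfl, q, Or.inr hqK, h.bq⟩

end Pool.Agent.LI6
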