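import Pool.Agent.LI5.Defs

/-!
LI6: the configuration of LI5 without any condition on the degrees of `s` and `t`.
-/

set_option autoImplicit false

namespace Pool.Agent.LI6

open Pool.Agent.LG6 Pool.Agent.LR5 Pool.Agent.LI5

variable {V : Type} {G : SimpleGraph V}

/-- The triangle `v, s, t` is complete to `a` and to `b`; the other neighbours of `v` are `p`, adjacent to
`a`, and `q`, adjacent to `b`. -/
structure Cg6 (G : SimpleGraph V) (a b v s t p q : V) : Prop where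
  vs : G.Adj v s
  vt : G.Adj v t
  st : G.Adj s t
  av : G.Adj a v
  as : G.Adj a s
  at' : G.Adj a t
  bv : G.Adj b v
  bs : G.Adj b s
  bt : G.Adj b t
  nab : ¬ G.Adj a b
  ab : a ≠ b
  nv : ∀ y, G.Adj v y → y = s ∨ y = t ∨ y = a ∨ y = b ∨ y = p ∨ y = q
  vp : G.Adj v p
  vq : G.Adj v q
  pq : G.Adj p q
  ap : G.Adj a p
  bq : G.Adj b q
  naq : ¬ G.Adj a q
  nbp : ¬ G.Adj b p
  nsp : ¬ G.Adj s p
  nsq : ¬ G.Adj s q
  ntp : ¬ G.Adj t p
  ntq : ¬ G.Adj t q
  ps : p ≠ s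
  pt : p ≠ t
  qs : q ≠ s
  qt : q ≠ t

theorem Cg6.swap {a b v s t p q : V} (h : Cg6 G a b v s t p q) :
    Cg6 G b a v s t q p where
  vs := h.vs
  vt := h.vt
  st := h.st
  av := h.bv
  as := h.bs
  at' := h.bt
  bv := h.av
  bs := h.as
  bt := h.at'
  nab := fun h' => h.nab h'.symm
  ab := h.ab.symm
  nv := fun y hy => by rcases h.nv y hy with h | h | h | h | h | h <;> simp [h]
  vp := h.vq
  vq := h.vp
  pq := h.pq.symm
  ap := h.bq
  bq := h.ap
  naq := h.nbp
  nbp := h.naq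
  nsp := h.nsq
  nsq := h.nsp
  ntp := h.ntq
  ntq := h.ntp
  ps := h.qs
  pt := h.qt
  qs := h.ps
  qt := h.pt

/-- a connected set `C`, disjoint from the admissible set `P` and from the triangle, adjacent to `s` and
to `t` -/
structure Pa6 (G : SimpleGraph V) (a b v s t p q : V) (P C : Set V) : Prop where
  adm : Ad5 G a b v s t p q P
  cc : Cn G C
  cP : Disjoint C P
  vC : v ∉ C
  sC : s ∉ C
  tC : t ∉ C
  ts : ∃ y ∈ C, G.Adj s y
  tt : ∃ y ∈ C, G.Adj t y

theorem Pa6.swap {a b v s t p q : V} {P C : Set V}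
    (h : Pa6 G a b v s t p q P C) : Pa6 G b a v s t q p P C :=
  ⟨h.adm.swap, h.cc, h.cP, h.vC, h.sC, h.tC, h.ts, h.tt⟩

/-- an optimal pair: `C` as large as possible, and then `P` as small as possible -/
structure Op6 (G : SimpleGraph V) (a b v s t p q : V) (P C : Set V) : Prop where
  pa : Pa6 G a b v s t p q P C
  star : ∀ P', Ad5 G a b v s t p q P' → Disjoint C P' → ∀ y, y ∉ C → y ≠ v → y ≠ s → y ≠ t →
    (∃ z ∈ C, G.Adj y z) → y ∈ P'
  min : ∀ P' ⊆ P, Ad5 G a b v s t p q P' → P' = P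

theorem Op6.swap {a b v s t p q : V} {P C : Set V}
    (h : Op6 G a b v s t p q P C) : Op6 G b a v s t q p P C :=
  ⟨h.pa.swap, fun P' hP' => h.star P' hP'.swap, fun P' hP hP' => h.min P' hP hP'.swap⟩

end Pool.Agent.LI6
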