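import Pool.Agent.LI6.Defs
import Pool.Agent.LI4.KNb

/-!
LI5: the final model, proof.
-/

set_option autoImplicit false

namespace Pool.Agent.LI6

open Pool.Agent.LG6 Pool.Agent.LR5 Pool.Agent.LI5

variable {V : Type} {G : SimpleGraph V}

theorem fin6 {a b v s t p q : V} (h : Cg6 G a b v s t p q) {P C : Set V}
    (o : Op6 G a b v s t p q P C) (hp : p ∈ C) : HasCompleteMinor 6 G := by
  obtain ⟨hPc0, haP, hbP, hvP, hsP, htP, hpq⟩ := o.pa.adm
  have hPc : Cn G (P \ {a}) := by
    apply Pool.Agent.LI4.min_conn hPc0 haP hbP h.ab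
    intro P' hP' hc ha hb
    exact o.min P' hP' ⟨hc, ha, hb, fun hj => hvP (hP' hj), fun hj => hsP (hP' hj),
      fun hj => htP (hP' hj), fun hi => hpq ⟨hP' hi.1, hP' hi.2⟩⟩
  have hbP' : b ∈ P \ {a} := ⟨hbP, fun hb => h.ab (Set.mem_singleton_iff.1 hb).symm⟩
  have haC : a ∉ C := fun ha => Set.disjoint_left.1 o.pa.cP ha haP
  have hA : ∃ y ∈ P \ {a}, G.Adj a y := by
    obtain ⟨g, g', hg, hg', hgg, hga, hg'a⟩ :=
      hPc0.exit (P := {a}) ⟨a, haP, rfl⟩ ⟨b, hbP, hbP'.2⟩
    rw [Set.mem_singleton_iff] at hga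
    rw [hga] at hgg
    exact ⟨g', ⟨hg', hg'a⟩, hgg⟩
  have hQ : ∃ y ∈ P \ {a}, ∃ z ∈ C, G.Adj y z := by
    by_cases hqC : q ∈ C
    · exact ⟨b, hbP', q, hqC, h.bq⟩
    · have hqP : q ∈ P :=
        o.star P o.pa.adm o.pa.cP q hqC h.vq.ne' h.qs h.qt ⟨p, hp, h.pq.symm⟩
      refine ⟨q, ⟨hqP, ?_⟩, p, hp, h.pq.symm⟩
      intro hqa
      rw [Set.mem_singleton_iff] at hqa
      have h2 := h.bq
      rw [hqa] at h2
      exact h.nab h2.symm
  have hsC := o.pa.ts
  have htC := o.pa.tt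
  have d01 : Disjoint ({a} : Set V) (P \ {a}) := by
    rw [Set.disjoint_singleton_left]
    exact fun h' => h'.2 rfl
  have d02 : Disjoint ({a} : Set V) C := by
    rw [Set.disjoint_singleton_left]
    exact haC
  have d12 : Disjoint (P \ {a}) C :=
    (Set.disjoint_of_subset_right Set.sdiff_subset o.pa.cP).symm
  have g01 : ∃ y ∈ ({a} : Set V), ∃ z ∈ P \ {a}, G.Adj y z := by
    obtain ⟨y, hy, hay⟩ := hA
    exact ⟨a, rfl, y, hy, hay⟩
  have g02 : ∃ y ∈ ({a} : Set V), ∃ z ∈ C, G.Adj y z := ⟨a, rfl, p, hp, h.ap⟩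
  have hs : ∀ {S T : Set V}, (∃ y ∈ S, ∃ z ∈ T, G.Adj y z) → ∃ y ∈ T, ∃ z ∈ S, G.Adj y z := by
    rintro S T ⟨y, hy, z, hz, hyz⟩
    exact ⟨z, hz, y, hy, hyz.symm⟩
  have hadj : ∀ i j : Fin 3, i ≠ j → G.Adj ((![v, s, t] : Fin 3 → V) i) (![v, s, t] j) := by
    intro i j hij
    fin_cases i <;> fin_cases j
    · exact absurd rfl hij
    · exact h.vs
    · exact h.vt
    · exact h.vs.symm
    · exact absurd rfl hij
    · exact h.st
    · exact h.vt.symm
    · exact h.st.symm
    · exact absurd rfl hij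
  have hinj : Function.Injective (![v, s, t] : Fin 3 → V) := by
    intro i j hij
    by_contra hne
    exact (hadj i j hne).ne hij
  have hT : ∀ e, e ∈ Finset.univ.map ⟨(![v, s, t] : Fin 3 → V), hinj⟩ →
      e = v ∨ e = s ∨ e = t := by
    intro e he
    obtain ⟨i, _, hi⟩ := Finset.mem_map.1 he
    rw [← hi]
    fin_cases i
    · exact Or.inl rfl
    · exact Or.inr (Or.inl rfl)
    · exact Or.inr (Or.inr rfl)
  refine clique_model (Finset.univ.map ⟨(![v, s, t] : Fin 3 → V), hinj⟩) ?_ (J := Fin 3)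
    (![{a}, P \ {a}, C] : Fin 3 → Set V) ?_ ?_ ?_ ?_ ?_ ?_
  · intro e he f hf hef
    obtain ⟨i, _, rfl⟩ := Finset.mem_map.1 he
    obtain ⟨j, _, rfl⟩ := Finset.mem_map.1 hf
    exact hadj i j (fun hij => hef (by rw [hij]))
  · intro j
    fin_cases j
    · exact cn_single G a
    · exact hPc
    · exact o.pa.cc
  · intro e he j
    fin_cases j
    · intro h2
      have h3 : e = a := h2
      rcases hT e he with h4 | h4 | h4
      · exact h.av.ne (h3.symm.trans h4)
      · exact h.as.ne (h3.symm.trans h4)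
      · exact h.at'.ne (h3.symm.trans h4)
    · intro h2
      have h3 : e ∈ P := h2.1
      rcases hT e he with h4 | h4 | h4
      · exact hvP (h4 ▸ h3)
      · exact hsP (h4 ▸ h3)
      · exact htP (h4 ▸ h3)
    · intro h2
      have h3 : e ∈ C := h2
      rcases hT e he with h4 | h4 | h4
      · exact o.pa.vC (h4 ▸ h3)
      · exact o.pa.sC (h4 ▸ h3)
      · exact o.pa.tC (h4 ▸ h3)
  · intro i j hij
    fin_cases i <;> fin_cases j
    · exact absurd rfl hij
    · exact d01
    · exact d02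
    · exact d01.symm
    · exact absurd rfl hij
    · exact d12
    · exact d02.symm
    · exact d12.symm
    · exact absurd rfl hij
  · intro i j hij
    fin_cases i <;> fin_cases j
    · exact absurd rfl hij
    · exact g01
    · exact g02
    · exact hs g01
    · exact absurd rfl hij
    · exact hQ
    · exact hs g02
    · exact hs hQ
    · exact absurd rfl hij
  · intro e he j
    rcases hT e he with h4 | h4 | h4
    · rw [h4]
      fin_cases j
      · exact ⟨a, rfl, h.av.symm⟩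
      · exact ⟨b, hbP', h.bv.symm⟩
      · exact ⟨p, hp, h.vp⟩
    · rw [h4]
      fin_cases j
      · exact ⟨a, rfl, h.as.symm⟩
      · exact ⟨b, hbP', h.bs.symm⟩
      · exact hsC
    · rw [h4]
      fin_cases j
      · exact ⟨a, rfl, h.at'.symm⟩
      · exact ⟨b, hbP', h.bt.symm⟩
      · exact htC
  · rw [Finset.card_map, Finset.card_univ, Fintype.card_fin]

end Pool.Agent.LI6
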