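import Pool.Agent.LI6.Opt
import Pool.Agent.LI6.Case1
import Pool.Agent.LI6.Case2
import Pool.Agent.LI6.Fin

/-!
LI6, step B: from a first pair to the `K₆` minor.
-/

set_option autoImplicit false

namespace Pool.Agent.LI6

open Pool.Agent.LG6 Pool.Agent.LR5 Pool.Agent.LI5

variable {V : Type} {G : SimpleGraph V}

theorem lemmaB [Fintype V] (hG : IsKConnected 6 G) {a b v s t p q z r r' w l l' : V}
    (h : Cg6 G a b v s t p q) (hR : Rt G a b v s t p q z r r')
    (hL : Rt G b a v s t q p w l l') (hA : ∃ P C, Pa6 G a b v s t p q P C) :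
    HasCompleteMinor 6 G := by
  obtain ⟨P, C, hPC⟩ := hA
  obtain ⟨P, C, o⟩ := exists_op6 hPC
  by_cases h1 : p ∈ C
  · exact fin6 h o h1
  by_cases h2 : q ∈ C
  · exact fin6 h.swap o.swap h2
  by_cases h3 : p ∈ P
  · exact case2 hG h hR o h1 h2 h3
  by_cases h4 : q ∈ P
  · exact case2 hG h.swap hL o.swap h2 h1 h4
  · exact (case1 hG h hR hL o h1 h2 h3 h4).elim

end Pool.Agent.LI6
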