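import Pool.Agent.LI6.Asm
import Pool.Agent.LI5.Main

/-!
LI6: a vertex that is the centre of no claw and has at most two neighbours that are centres of claws.
-/

set_option autoImplicit false

namespace Pool.Agent.LI6

open Pool.Agent.LG6 Pool.Agent.LR5 Pool.Agent.LD6 Pool.Agent.LI4 Pool.Agent.LI5

variable {V : Type} {G : SimpleGraph V}

/-- one of `a'`, `b'` is the centre of a claw -/
theorem not_both [Fintype V] (hG : IsKConnected 6 G) (hm : ¬ HasCompleteMinor 6 G)
    (hA : ¬ ∃ p, NoMin G {p}) {v s t a b a' b' : V} (hv : NC G v) (h : T2 G v s t a b a' b')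
    (na' : NC G a') (nb' : NC G b') : False := by
  classical
  have Av := At.mk' hG hm hv
  have Aa' := At.mk' hG hm na'
  have Ab' := At.mk' hG hm nb'
  have ca : ∀ y, G.Adj v y → G.Adj a' y → y = a ∨ y = b' := by
    intro y hy hy'
    rcases t2_all Av h y hy with e | e | e | e | e | e
    · exact absurd (e ▸ hy'.symm) h.nsa
    · exact absurd (e ▸ hy'.symm) h.nta
    · exact Or.inl e
    · exact absurd (e ▸ hy'.symm) h.nba'
    · exact absurd e hy'.ne'
    · exact Or.inr e
  have cb : ∀ y, G.Adj v y → G.Adj b' y → y = b ∨ y = a' := by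
    intro y hy hy'
    rcases t2_all Av h y hy with e | e | e | e | e | e
    · exact absurd (e ▸ hy'.symm) h.nsb
    · exact absurd (e ▸ hy'.symm) h.ntb
    · exact absurd (e ▸ hy'.symm) h.nab'
    · exact Or.inl e
    · exact Or.inr e
    · exact absurd e hy'.ne'
  have t1 : ∃ s t a b x y, T2 G a' s t a b x y := by
    refine ty_two hG hm hA na' h.va'.symm ?_
    intro y z h1 h2 h3 h4 hyz
    rcases ca y h3 h1 with rfl | rfl <;> rcases ca z h4 h2 with rfl | rfl
    · exact hyz.ne rfl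
    · exact h.nab' hyz
    · exact h.nab' hyz.symm
    · exact hyz.ne rfl
  have t2 : ∃ s t a b x y, T2 G b' s t a b x y := by
    refine ty_two hG hm hA nb' h.vb'.symm ?_
    intro y z h1 h2 h3 h4 hyz
    rcases cb y h3 h1 with rfl | rfl <;> rcases cb z h4 h2 with rfl | rfl
    · exact hyz.ne rfl
    · exact h.nba' hyz
    · exact h.nba' hyz.symm
    · exact hyz.ne rfl
  have g := cg6_of Av h
  rcases both Av Aa' Ab' h t1 t2 with ⟨c, n, n', m, m', k, l⟩ | ⟨c, d, n, n', k, l⟩
  · exact hm (lemmaB hG g (nm_rt h k l) (nm_rt h.rev l k) (nm_stepA hG hm Aa' Ab' h k l g))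
  · exact hm (lemmaB hG g (ab_rt h k l) (ab_rt h.rev l k) (ab_stepA hG Aa' Ab' h k l g))

/-- at most two of the neighbours of `x` are centres of claws -/
def Two (G : SimpleGraph V) (v : V) : Prop :=
  ∀ x y z, G.Adj v x → G.Adj v y → G.Adj v z → x ≠ y → x ≠ z → y ≠ z →
    NC G x ∨ NC G y ∨ NC G z

theorem t2_case [Fintype V] (hG : IsKConnected 6 G) (hm : ¬ HasCompleteMinor 6 G)
    (hA : ¬ ∃ p, NoMin G {p}) {v s t a b a' b' : V} (hv : NC G v) (h : T2 G v s t a b a' b')
    (hT : Two G v) (na' : ¬ NC G a') : False := by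
  classical
  have key : ∀ s t, T2 G v s t a b a' b' → ¬ NC G s → False := by
    intro s t h hs
    have hn : ∀ y, G.Adj v y → y ≠ s → y ≠ a' → NC G y := by
      intro y hy h1 h2
      rcases hT s a' y h.vs h.va' hy h.ne.1 (fun e => h1 e.symm) (fun e => h2 e.symm) with
        e | e | e
      · exact absurd e hs
      · exact absurd e na'
      · exact e
    have tri : Tri1 G v := by
      intro y z hy hz hyz
      by_cases hy' : NC G y
      · exact Or.inl hy'
      · right
        by_contra hz'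
        have y1 : y = s ∨ y = a' := by
          by_contra hc
          push Not at hc
          exact hy' (hn y hy hc.1 hc.2)
        have z1 : z = s ∨ z = a' := by
          by_contra hc
          push Not at hc
          exact hz' (hn z hz hc.1 hc.2)
        rcases y1 with rfl | rfl <;> rcases z1 with rfl | rfl
        · exact hyz.ne rfl
        · exact h.nsa hyz
        · exact h.nsa hyz.symm
        · exact hyz.ne rfl
    exact hs (hub_nc hG hm hA hv h tri)
  have ns : NC G s := by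
    by_contra hs
    exact key s t h hs
  have nt : NC G t := by
    by_contra ht
    exact key t s h.swap ht
  have na := a_not_nc hG hm hA hv h ns nt
  have nb := a_not_nc hG hm hA hv h.rev ns nt
  rcases hT a b a' h.va h.vb h.va' h.ne.2.2.2.2.1 h.aa'.ne h.ne.2.2.2.2.2.2 with e | e | e
  · exact na e
  · exact nb e
  · exact na' e

/-- in `QV` at most three of the six neighbours are centres of no claw -/
theorem qv_case [Fintype V] (hG : IsKConnected 6 G) (hm : ¬ HasCompleteMinor 6 G)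
    {v : V} {A B : Finset V} (q : QV G v A B) (hT : Two G v) : False := by
  classical
  have hab : ∀ a ∈ A, ∀ b ∈ B, a ≠ b := fun a ha b hb e => q.disj a ha (e ▸ hb)
  -- two claw centres in `A`
  have key : ∀ {A B : Finset V}, QV G v A B → ∀ a₁ ∈ A, ∀ a₂ ∈ A, a₁ ≠ a₂ → ¬ NC G a₁ →
      ¬ NC G a₂ → False := by
    intro A B q a₁ h1 a₂ h2 h12 n1 n2
    have hab : ∀ a ∈ A, ∀ b ∈ B, a ≠ b := fun a ha b hb e => q.disj a ha (e ▸ hb)
    have hB : ∀ b ∈ B, ∃ a ∈ A, G.Adj b a := by
      intro b hb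
      refine qv_nc hG hm q.swap hb ?_
      rcases hT a₁ a₂ b ((q.nbr _).2 (Or.inl h1)) ((q.nbr _).2 (Or.inl h2))
        ((q.nbr _).2 (Or.inr hb)) h12 (hab _ h1 _ hb) (hab _ h2 _ hb) with e | e | e
      · exact absurd e n1
      · exact absurd e n2
      · exact e
    obtain ⟨b₁, b₂, b₃, k12, k13, k23, hBe⟩ := Finset.card_eq_three.1 q.hB
    have m1 : b₁ ∈ B := by simp [hBe]
    have m2 : b₂ ∈ B := by simp [hBe]
    have m3 : b₃ ∈ B := by simp [hBe]
    obtain ⟨x₁, hx₁, e₁⟩ := hB b₁ m1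
    obtain ⟨x₂, hx₂, e₂⟩ := hB b₂ m2
    obtain ⟨x₃, hx₃, e₃⟩ := hB b₃ m3
    have x12 : x₁ = x₂ := by
      by_contra hne
      exact qv_disj hG hm q hx₁ hx₂ m1 m2 hne k12 e₁.symm e₂.symm
    have x13 : x₁ = x₃ := by
      by_contra hne
      exact qv_disj hG hm q hx₁ hx₃ m1 m3 hne k13 e₁.symm e₃.symm
    have vx : G.Adj v x₁ := (q.nbr _).2 (Or.inl hx₁)
    exact five hG hm vx ((q.nbr _).2 (Or.inr m1)) ((q.nbr _).2 (Or.inr m2))
      ((q.nbr _).2 (Or.inr m3)) e₁.symm (x12 ▸ e₂.symm) (x13 ▸ e₃.symm) (q.cB _ m1 _ m2 k12)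
      (q.cB _ m1 _ m3 k13) (q.cB _ m2 _ m3 k23)
  have two : ∀ {A B : Finset V}, QV G v A B → ∃ a ∈ A, ∃ b ∈ A, a ≠ b ∧ NC G a ∧ NC G b := by
    intro A B q
    obtain ⟨a₁, a₂, a₃, h12, h13, h23, hAe⟩ := Finset.card_eq_three.1 q.hA
    have m1 : a₁ ∈ A := by simp [hAe]
    have m2 : a₂ ∈ A := by simp [hAe]
    have m3 : a₃ ∈ A := by simp [hAe]
    by_cases n1 : NC G a₁
    · by_cases n2 : NC G a₂
      · exact ⟨a₁, m1, a₂, m2, h12, n1, n2⟩
      · by_cases n3 : NC G a₃
        · exact ⟨a₁, m1, a₃, m3, h13, n1, n3⟩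
        · exact (key q a₂ m2 a₃ m3 h23 n2 n3).elim
    · by_cases n2 : NC G a₂
      · by_cases n3 : NC G a₃
        · exact ⟨a₂, m2, a₃, m3, h23, n2, n3⟩
        · exact (key q a₁ m1 a₃ m3 h13 n1 n3).elim
      · exact (key q a₁ m1 a₂ m2 h12 n1 n2).elim
  obtain ⟨a₁, ha₁, a₂, ha₂, ha12, n1, n2⟩ := two q
  obtain ⟨b₁, hb₁, b₂, hb₂, hb12, k1, k2⟩ := two q.swap
  obtain ⟨u, hu, hau⟩ := qv_nc hG hm q ha₁ n1
  obtain ⟨w, hw, haw⟩ := qv_nc hG hm q ha₂ n2
  have huw : u = w := by
    by_contra hne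
    exact qv_disj hG hm q ha₁ ha₂ hu hw ha12 hne hau haw
  subst huw
  have hb : ∃ b ∈ B, b ≠ u ∧ NC G b := by
    by_cases h : b₁ = u
    · exact ⟨b₂, hb₂, fun h' => hb12 (h.trans h'.symm), k2⟩
    · exact ⟨b₁, hb₁, h, k1⟩
  obtain ⟨b, hbB, hbu, hbn⟩ := hb
  obtain ⟨z, hz, hbz⟩ := qv_nc hG hm q.swap hbB hbn
  by_cases h : a₁ = z
  · exact qv_disj hG hm q ha₂ hz hu hbB (fun h' => ha12 (h.trans h'.symm)) hbu.symm haw hbz.symm
  · exact qv_disj hG hm q ha₁ hz hu hbB h hbu.symm hau hbz.symm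

/-- If `v` is the centre of no claw and has at most two neighbours that are centres of claws, then `G` is
apex. -/
theorem main2 [Fintype V] (hG : IsKConnected 6 G) (hm : ¬ HasCompleteMinor 6 G) {v : V}
    (hv : NC G v) (hT : Two G v) : ∃ p, NoMin G {p} := by
  classical
  by_contra hA
  rcases ty_cases hG hm hA hv with ⟨s, t, a, b, a', b', h⟩ | ⟨A, B, q⟩
  · by_cases na' : NC G a'
    · by_cases nb' : NC G b'
      · exact not_both hG hm hA hv h na' nb'
      · exact t2_case hG hm hA hv h.rev hT nb'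
    · exact t2_case hG hm hA hv h hT na'
  · exact qv_case hG hm q hT

end Pool.Agent.LI6
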