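import Pool.Agent.LI6.Defs

/-!
LI5: an optimal pair exists.  Same proof as `LI4/KOpt`: among all pairs `(P, C)` with `Pa5` choose one
with `C.ncard` maximal and, among these, `P.ncard` minimal.  `star`: otherwise `insert y C` and `P'` is
a better pair.  `min`: `P' ⊆ P` is disjoint from `C`.
-/

set_option autoImplicit false

namespace Pool.Agent.LI6

open Pool.Agent.LG6 Pool.Agent.LR5 Pool.Agent.LI5

variable {V : Type} {G : SimpleGraph V}

theorem exists_op6 [Finite V] {a b v s t p q : V} {P C : Set V}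
    (h : Pa6 G a b v s t p q P C) : ∃ P C, Op6 G a b v s t p q P C := by
  classical
  set S : Set (Set V × Set V) := {z | Pa6 G a b v s t p q z.1 z.2} with hS
  have hfin : S.Finite := Set.toFinite S
  have hne : S.Nonempty := ⟨(P, C), h⟩
  obtain ⟨z1, hz1, hmax⟩ := Set.exists_max_image S (fun z => z.2.ncard) hfin hne
  set S2 : Set (Set V × Set V) := {z | z ∈ S ∧ z.2.ncard = z1.2.ncard} with hS2
  obtain ⟨z, ⟨hz, hzc⟩, hmin⟩ := Set.exists_min_image S2 (fun z => z.1.ncard) (Set.toFinite S2)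
    ⟨z1, hz1, rfl⟩
  have hz' : Pa6 G a b v s t p q z.1 z.2 := hz
  refine ⟨z.1, z.2, hz', ?_, ?_⟩
  · intro P' hP' hd y hy hyv hys hyt hyz
    by_contra hyP
    obtain ⟨w, hw, hyw⟩ := hyz
    have h5 : ((P', insert y z.2) : Set V × Set V) ∈ S := by
      refine ⟨hP', Cn.insert hz'.cc ⟨w, hw, hyw⟩, ?_, ?_, ?_, ?_, ?_, ?_⟩
      · rw [Set.disjoint_left]
        intro u hu hu'
        rcases hu with rfl | hu
        · exact hyP hu'
        · exact Set.disjoint_left.1 hd hu hu'
      · rintro (hj | hj)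
        · exact hyv hj.symm
        · exact hz'.vC hj
      · rintro (hj | hj)
        · exact hys hj.symm
        · exact hz'.sC hj
      · rintro (hj | hj)
        · exact hyt hj.symm
        · exact hz'.tC hj
      · obtain ⟨u, hu, hsu⟩ := hz'.ts
        exact ⟨u, Or.inr hu, hsu⟩
      · obtain ⟨u, hu, htu⟩ := hz'.tt
        exact ⟨u, Or.inr hu, htu⟩
    have h6 := hmax _ h5
    have h7 : (insert y z.2).ncard = z.2.ncard + 1 :=
      Set.ncard_insert_of_notMem hy (Set.toFinite _)
    simp only at h6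
    omega
  · intro P' hsub hP'
    have h5 : ((P', z.2) : Set V × Set V) ∈ S2 :=
      ⟨⟨hP', hz'.cc, hz'.cP.mono_right hsub, hz'.vC, hz'.sC, hz'.tC, hz'.ts, hz'.tt⟩, hzc⟩
    have h6 := hmin _ h5
    exact Set.eq_of_subset_of_ncard_le hsub h6 (Set.toFinite _)

end Pool.Agent.LI6
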