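import Pool.Agent.LI6.Defs
import Pool.Agent.LI5.Piece

/-!
LI6, step A: general lemmas on the pieces of `G` minus the triangle minus `{a, p, z, r, b}` (see LI5).
-/

set_option autoImplicit false

namespace Pool.Agent.LI6

open Pool.Agent.LG6 Pool.Agent.LR5 Pool.Agent.LI5

variable {V : Type} {G : SimpleGraph V}

theorem piece_ok [Fintype V] (hG : IsKConnected 6 G) {a b v s t p q z r : V}
    (h : Cg6 G a b v s t p q) (hQ : Ad5 G a b v s t p q {a, p, z, r, b}) (K : Set V)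
    (hK : Cn G K) (hKQ : Disjoint K ({a, p, z, r, b} : Set V)) (hv : v ∉ K) (hs : s ∉ K)
    (ht : t ∉ K)
    (hcl : ∀ y, y ∉ K → (∃ x ∈ K, G.Adj y x) →
      y ∈ ({a, p, z, r, b} : Set V) ∨ y = v ∨ y = s ∨ y = t)
    (hq : q ∉ K) (hp : ∀ y ∈ K, ¬ G.Adj p y) : Pa6 G a b v s t p q {a, p, z, r, b} K := by
  have hd : ∀ y ∈ K, y ≠ a ∧ y ≠ p ∧ y ≠ z ∧ y ≠ r ∧ y ≠ b := by
    intro y hy
    have := Set.disjoint_left.1 hKQ hy
    simp only [Set.mem_insert_iff, Set.mem_singleton_iff, not_or] at this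
    exact this
  have hne : K.Nonempty := by
    obtain ⟨x⟩ := hK.nonempty
    exact ⟨x.1, x.2⟩
  have hpK : p ∉ K := fun hpK => (hd p hpK).2.1 rfl
  have h6 := LI4.nbhd6 hG K hne p hpK hp
  have hvK : ∀ u ∈ K, ¬ G.Adj v u := by
    intro u hu hvu
    rcases h.nv u hvu with rfl | rfl | rfl | rfl | rfl | rfl
    · exact hs hu
    · exact ht hu
    · exact (hd _ hu).1 rfl
    · exact (hd _ hu).2.2.2.2 rfl
    · exact hpK hu
    · exact hq hu
  have hS : ∀ y ∈ ({y | y ∉ K ∧ ∃ u ∈ K, G.Adj y u} : Set V),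
      y = a ∨ y = z ∨ y = r ∨ y = b ∨ y = s ∨ y = t := by
    rintro y ⟨hy, u, hu, hyu⟩
    rcases hcl y hy ⟨u, hu, hyu⟩ with h1 | h1 | h1 | h1
    · simp only [Set.mem_insert_iff, Set.mem_singleton_iff] at h1
      rcases h1 with h1 | h1 | h1 | h1 | h1
      · exact Or.inl h1
      · rw [h1] at hyu
        exact absurd hyu (hp u hu)
      · exact Or.inr (Or.inl h1)
      · exact Or.inr (Or.inr (Or.inl h1))
      · exact Or.inr (Or.inr (Or.inr (Or.inl h1)))
    · rw [h1] at hyu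
      exact absurd hyu (hvK u hu)
    · simp [h1]
    · simp [h1]
  have hsK : ∃ u ∈ K, G.Adj s u := by
    by_contra hc
    have := ncard_five (S := {y | y ∉ K ∧ ∃ u ∈ K, G.Adj y u}) (x₁ := a) (x₂ := z) (x₃ := r) (x₄ := b)
      (x₅ := t) (by
        intro y hy
        rcases hS y hy with h1 | h1 | h1 | h1 | h1 | h1
        · simp [h1]
        · simp [h1]
        · simp [h1]
        · simp [h1]
        · rw [h1] at hy
          exact absurd hy.2 hc
        · simp [h1])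
    omega
  have htK : ∃ u ∈ K, G.Adj t u := by
    by_contra hc
    have := ncard_five (S := {y | y ∉ K ∧ ∃ u ∈ K, G.Adj y u}) (x₁ := a) (x₂ := z) (x₃ := r) (x₄ := b)
      (x₅ := s) (by
        intro y hy
        rcases hS y hy with h1 | h1 | h1 | h1 | h1 | h1
        · simp [h1]
        · simp [h1]
        · simp [h1]
        · simp [h1]
        · simp [h1]
        · rw [h1] at hy
          exact absurd hy.2 hc)
    omega
  exact ⟨hQ, hK, hKQ, hv, hs, ht, hsK, htK⟩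

/-- `s` and `t` are not in `K` (needed: otherwise `K = {s}` is a counterexample) -/
theorem piece_adj [Fintype V] (hG : IsKConnected 6 G) {a b v s t p q z r : V}
    (h : Cg6 G a b v s t p q) (K : Set V)
    (hK : Cn G K) (hKQ : Disjoint K ({a, p, z, r, b} : Set V)) (hv : v ∉ K) (hs : s ∉ K)
    (ht : t ∉ K)
    (hcl : ∀ y, y ∉ K → (∃ x ∈ K, G.Adj y x) →
      y ∈ ({a, p, z, r, b} : Set V) ∨ y = v ∨ y = s ∨ y = t)
    (hq : q ∉ K) (hst : ¬ ((∃ x ∈ K, G.Adj s x) ∧ ∃ x ∈ K, G.Adj t x)) :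
    ∀ y ∈ ({a, p, z, r, b} : Set V), ∃ x ∈ K, G.Adj y x := by
  have hd : ∀ y ∈ K, y ≠ a ∧ y ≠ p ∧ y ≠ z ∧ y ≠ r ∧ y ≠ b := by
    intro y hy
    have := Set.disjoint_left.1 hKQ hy
    simp only [Set.mem_insert_iff, Set.mem_singleton_iff, not_or] at this
    exact this
  have hne : K.Nonempty := by
    obtain ⟨x⟩ := hK.nonempty
    exact ⟨x.1, x.2⟩
  have hvK : ∀ u ∈ K, ¬ G.Adj v u := by
    intro u hu hvu
    rcases h.nv u hvu with rfl | rfl | rfl | rfl | rfl | rfl
    · exact hs hu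
    · exact ht hu
    · exact (hd _ hu).1 rfl
    · exact (hd _ hu).2.2.2.2 rfl
    · exact (hd _ hu).2.1 rfl
    · exact hq hu
  have h6 := LI4.nbhd6 hG K hne v hv hvK
  -- one vertex `w` of `s, t` remains
  obtain ⟨w, hw⟩ : ∃ w, ∀ y ∈ ({y | y ∉ K ∧ ∃ u ∈ K, G.Adj y u} : Set V),
      y = a ∨ y = p ∨ y = z ∨ y = r ∨ y = b ∨ y = w := by
    have hS : ∀ y ∈ ({y | y ∉ K ∧ ∃ u ∈ K, G.Adj y u} : Set V),
        y = a ∨ y = p ∨ y = z ∨ y = r ∨ y = b ∨ y = s ∨ y = t := by
      rintro y ⟨hy, u, hu, hyu⟩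
      rcases hcl y hy ⟨u, hu, hyu⟩ with h1 | h1 | h1 | h1
      · simp only [Set.mem_insert_iff, Set.mem_singleton_iff] at h1
        rcases h1 with h1 | h1 | h1 | h1 | h1 <;> simp [h1]
      · rw [h1] at hyu
        exact absurd hyu (hvK u hu)
      · simp [h1]
      · simp [h1]
    by_cases hc : ∃ x ∈ K, G.Adj s x
    · refine ⟨s, fun y hy => ?_⟩
      rcases hS y hy with h1 | h1 | h1 | h1 | h1 | h1 | h1
      · simp [h1]
      · simp [h1]
      · simp [h1]
      · simp [h1]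
      · simp [h1]
      · simp [h1]
      · rw [h1] at hy
        exact absurd ⟨hc, hy.2⟩ hst
    · refine ⟨t, fun y hy => ?_⟩
      rcases hS y hy with h1 | h1 | h1 | h1 | h1 | h1 | h1
      · simp [h1]
      · simp [h1]
      · simp [h1]
      · simp [h1]
      · simp [h1]
      · rw [h1] at hy
        exact absurd hy.2 hc
      · simp [h1]
  intro y hy
  by_contra hc
  simp only [Set.mem_insert_iff, Set.mem_singleton_iff] at hy
  have hyn : ∀ y' ∈ ({y | y ∉ K ∧ ∃ u ∈ K, G.Adj y u} : Set V), y' ≠ y := by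
    rintro y' hy' rfl
    exact hc hy'.2
  rcases hy with hy | hy | hy | hy | hy
  · refine ncard_five' (x₁ := p) (x₂ := z) (x₃ := r) (x₄ := b) (x₅ := w) h6 fun y' hy' => ?_
    rcases hw y' hy' with h1 | h1 | h1 | h1 | h1 | h1
    · exact absurd (h1.trans hy.symm) (hyn y' hy')
    all_goals simp [h1]
  · refine ncard_five' (x₁ := a) (x₂ := z) (x₃ := r) (x₄ := b) (x₅ := w) h6 fun y' hy' => ?_
    rcases hw y' hy' with h1 | h1 | h1 | h1 | h1 | h1
    · simp [h1]
    · exact absurd (h1.trans hy.symm) (hyn y' hy')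
    all_goals simp [h1]
  · refine ncard_five' (x₁ := a) (x₂ := p) (x₃ := r) (x₄ := b) (x₅ := w) h6 fun y' hy' => ?_
    rcases hw y' hy' with h1 | h1 | h1 | h1 | h1 | h1
    · simp [h1]
    · simp [h1]
    · exact absurd (h1.trans hy.symm) (hyn y' hy')
    all_goals simp [h1]
  · refine ncard_five' (x₁ := a) (x₂ := p) (x₃ := z) (x₄ := b) (x₅ := w) h6 fun y' hy' => ?_
    rcases hw y' hy' with h1 | h1 | h1 | h1 | h1 | h1
    · simp [h1]
    · simp [h1]
    · simp [h1]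
    · exact absurd (h1.trans hy.symm) (hyn y' hy')
    all_goals simp [h1]
  · refine ncard_five' (x₁ := a) (x₂ := p) (x₃ := z) (x₄ := r) (x₅ := w) h6 fun y' hy' => ?_
    rcases hw y' hy' with h1 | h1 | h1 | h1 | h1 | h1
    · simp [h1]
    · simp [h1]
    · simp [h1]
    · simp [h1]
    · exact absurd (h1.trans hy.symm) (hyn y' hy')
    · simp [h1]

end Pool.Agent.LI6
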