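import Pool.Agent.LI6.Defs

/-!
LI6: a 4-clique and two adjacent connected sets adjacent to all four vertices form a `K₆` model.
-/

set_option autoImplicit false

namespace Pool.Agent.LI6

open Pool.Agent.LG6 Pool.Agent.LR5 Pool.Agent.LI5

variable {V : Type} {G : SimpleGraph V}

theorem six6 {v s t a : V} {X Y : Set V} (h1 : G.Adj v s) (h2 : G.Adj v t) (h3 : G.Adj s t)
    (h4 : G.Adj v a) (h5 : G.Adj s a) (h6 : G.Adj t a) (hX : Cn G X) (hY : Cn G Y)
    (nX : v ∉ X ∧ s ∉ X ∧ t ∉ X ∧ a ∉ X) (nY : v ∉ Y ∧ s ∉ Y ∧ t ∉ Y ∧ a ∉ Y)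
    (hd : Disjoint X Y)
    (eX : (∃ y ∈ X, G.Adj v y) ∧ (∃ y ∈ X, G.Adj s y) ∧ (∃ y ∈ X, G.Adj t y) ∧
      ∃ y ∈ X, G.Adj a y)
    (eY : (∃ y ∈ Y, G.Adj v y) ∧ (∃ y ∈ Y, G.Adj s y) ∧ (∃ y ∈ Y, G.Adj t y) ∧
      ∃ y ∈ Y, G.Adj a y)
    (e : ∃ x ∈ X, ∃ y ∈ Y, G.Adj x y) : HasCompleteMinor 6 G := by
  have hadj : ∀ i j : Fin 4, i ≠ j →
      G.Adj ((![v, s, t, a] : Fin 4 → V) i) ((![v, s, t, a] : Fin 4 → V) j) := by
    intro i j hij
    fin_cases i <;> fin_cases j
    · exact absurd rfl hij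
    · exact h1
    · exact h2
    · exact h4
    · exact h1.symm
    · exact absurd rfl hij
    · exact h3
    · exact h5
    · exact h2.symm
    · exact h3.symm
    · exact absurd rfl hij
    · exact h6
    · exact h4.symm
    · exact h5.symm
    · exact h6.symm
    · exact absurd rfl hij
  have hinj : Function.Injective (![v, s, t, a] : Fin 4 → V) := by
    intro i j hij
    by_contra hne
    exact (hadj i j hne).ne hij
  have hT : ∀ e, e ∈ Finset.univ.map ⟨(![v, s, t, a] : Fin 4 → V), hinj⟩ →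
      e = v ∨ e = s ∨ e = t ∨ e = a := by
    intro e he
    obtain ⟨i, _, hi⟩ := Finset.mem_map.1 he
    rw [← hi]
    fin_cases i
    · exact Or.inl rfl
    · exact Or.inr (Or.inl rfl)
    · exact Or.inr (Or.inr (Or.inl rfl))
    · exact Or.inr (Or.inr (Or.inr rfl))
  have e' : ∃ y ∈ Y, ∃ x ∈ X, G.Adj y x := by
    obtain ⟨x, hx, y, hy, hxy⟩ := e
    exact ⟨y, hy, x, hx, hxy.symm⟩
  refine clique_model (Finset.univ.map ⟨(![v, s, t, a] : Fin 4 → V), hinj⟩) ?_ (J := Fin 2)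
    (![X, Y] : Fin 2 → Set V) ?_ ?_ ?_ ?_ ?_ ?_
  · intro e he f hf hef
    obtain ⟨i, _, rfl⟩ := Finset.mem_map.1 he
    obtain ⟨j, _, rfl⟩ := Finset.mem_map.1 hf
    exact hadj i j (fun hij => hef (by rw [hij]))
  · intro j
    fin_cases j
    · exact hX
    · exact hY
  · intro e he j
    fin_cases j
    · intro h2
      have h3 : e ∈ X := h2
      rcases hT e he with h4 | h4 | h4 | h4
      · exact nX.1 (h4 ▸ h3)
      · exact nX.2.1 (h4 ▸ h3)
      · exact nX.2.2.1 (h4 ▸ h3)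
      · exact nX.2.2.2 (h4 ▸ h3)
    · intro h2
      have h3 : e ∈ Y := h2
      rcases hT e he with h4 | h4 | h4 | h4
      · exact nY.1 (h4 ▸ h3)
      · exact nY.2.1 (h4 ▸ h3)
      · exact nY.2.2.1 (h4 ▸ h3)
      · exact nY.2.2.2 (h4 ▸ h3)
  · intro i j hij
    fin_cases i <;> fin_cases j
    · exact absurd rfl hij
    · exact hd
    · exact hd.symm
    · exact absurd rfl hij
  · intro i j hij
    fin_cases i <;> fin_cases j
    · exact absurd rfl hij
    · exact e
    · exact e'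
    · exact absurd rfl hij
  · intro e he j
    rcases hT e he with h4 | h4 | h4 | h4
    · rw [h4]
      fin_cases j
      · exact eX.1
      · exact eY.1
    · rw [h4]
      fin_cases j
      · exact eX.2.1
      · exact eY.2.1
    · rw [h4]
      fin_cases j
      · exact eX.2.2.1
      · exact eY.2.2.1
    · rw [h4]
      fin_cases j
      · exact eX.2.2.2
      · exact eY.2.2.2
  · rw [Finset.card_map, Finset.card_univ, Fintype.card_fin, Fintype.card_fin]

end Pool.Agent.LI6
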